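import Pool.Agent.W957.CH.Stm

set_option autoImplicit false

namespace Pool.Agent.W804.CH

open Finset Pool.Agent.W957.CH

variable {V : Type}

/-- adjacency without new connections inside the cycle -/
def Q (G : SimpleGraph V) (n : ℕ) (c : ℕ → V) (x y : V) : Prop :=
  G.Adj x y ∧ ∀ i j, i < n → j < n → c i = x → c j = y → cons n i j

theorem cons_symm {n i j : ℕ} (h : cons n i j) : cons n j i := by
  unfold Pool.Agent.W957.CH.cons at *
  omega

theorem Q_symm {G : SimpleGraph V} {n : ℕ} {c : ℕ → V} {x y : V} (h : Q G n c x y) :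
    Q G n c y x :=
  ⟨h.1.symm, fun i j hi hj h1 h2 => cons_symm (h.2 j i hj hi h2 h1)⟩

/-- block -/
def BF (G : SimpleGraph V) (n : ℕ) (c : ℕ → V) (x y : V) (l : List V) : Prop :=
  l.IsChain (Q G n c) ∧ l.head? = some x ∧ l.getLast? = some y

theorem BF_append {G : SimpleGraph V} {n : ℕ} {c : ℕ → V} {x y x' y' : V} {l l' : List V}
    (h : BF G n c x y l) (h' : BF G n c x' y' l') (hq : Q G n c y x') :
    BF G n c x y' (l ++ l') := by
  obtain ⟨h1, h2, h3⟩ := h
  obtain ⟨g1, g2, g3⟩ := h'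
  refine ⟨?_, ?_, ?_⟩
  · rw [List.isChain_append]
    refine ⟨h1, g1, ?_⟩
    intro a ha b hb
    rw [h3] at ha
    rw [g2] at hb
    have e1 : y = a := by simpa using ha
    have e2 : x' = b := by simpa using hb
    subst e1 e2
    exact hq
  · rw [List.head?_append, h2]
    rfl
  · rw [List.getLast?_append, g3]
    rfl

theorem BF_reverse {G : SimpleGraph V} {n : ℕ} {c : ℕ → V} {x y : V} {l : List V}
    (h : BF G n c x y l) : BF G n c y x l.reverse := by
  obtain ⟨h1, h2, h3⟩ := h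
  refine ⟨?_, ?_, ?_⟩
  · rw [List.isChain_reverse]
    exact h1.imp fun a b hab => Q_symm hab
  · rw [List.head?_reverse, h3]
  · rw [List.getLast?_reverse, h2]

theorem Q_step {G : SimpleGraph V} {n : ℕ} {c : ℕ → V} (hc : CR G n c) (i : ℕ) (hi : i + 1 < n) :
    Q G n c (c i) (c (i + 1)) := by
  refine ⟨hc.adj i hi, fun a b ha hb h1 h2 => ?_⟩
  have e1 := hc.inj a i ha (by omega) h1
  have e2 := hc.inj b (i + 1) hb hi h2
  unfold Pool.Agent.W957.CH.cons
  omega

theorem BF_range {G : SimpleGraph V} {n : ℕ} {c : ℕ → V} (hc : CR G n c) (m : ℕ) : ∀ (a : ℕ),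
    a + m < n → BF G n c (c a) (c (a + m)) ((List.range' a (m + 1)).map c) := by
  induction m with
  | zero =>
    intro a _
    refine ⟨?_, ?_, ?_⟩ <;> simp [List.range'_succ]
  | succ m ih =>
    intro a ha
    have h1 := ih (a + 1) (by omega)
    have h2 : BF G n c (c a) (c a) [c a] := ⟨by simp, by simp, by simp⟩
    have h3 := BF_append h2 h1 (Q_step hc a (by omega))
    rw [show a + 1 + m = a + (m + 1) by omega] at h3
    rw [List.range'_succ, List.map_cons]
    exact h3

theorem BF_sg {G : SimpleGraph V} {n : ℕ} {c : ℕ → V} (hc : CR G n c) {a b : ℕ} (hab : a ≤ b)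
    (hb : b < n) : BF G n c (c a) (c b) (sg c a b) := by
  have h := BF_range hc (b - a) a (by omega)
  rw [show a + (b - a) = b by omega, show b - a + 1 = b + 1 - a by omega] at h
  exact h

theorem Q_out_left {G : SimpleGraph V} [DecidableEq V] {n : ℕ} {c : ℕ → V} {x y : V}
    (h : G.Adj x y) (hx : x ∉ img n c) : Q G n c x y := by
  refine ⟨h, fun i j hi _ h1 _ => ?_⟩
  exact absurd (mem_image.2 ⟨i, mem_range.2 hi, h1⟩) hx

theorem Q_out_right {G : SimpleGraph V} [DecidableEq V] {n : ℕ} {c : ℕ → V} {x y : V}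
    (h : G.Adj x y) (hy : y ∉ img n c) : Q G n c x y := Q_symm (Q_out_left h.symm hy)

theorem mem_of_head {l : List V} {x : V} (h : l.head? = some x) : x ∈ l :=
  List.mem_of_mem_head? (by rw [h]; rfl)

theorem mem_of_last {l : List V} {x : V} (h : l.getLast? = some x) : x ∈ l :=
  List.mem_of_mem_getLast? (by rw [h]; rfl)

theorem BF_ear [DecidableEq V] {X : Cx V} {n : ℕ} {c : ℕ → V} {a b : ℕ} {R : List V}
    (h : Ear X n c a b R) : ∃ u v, BF X.G n c u v R ∧ Q X.G n c (c a) u ∧ Q X.G n c v (c b) := by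
  obtain ⟨⟨u, v, ⟨⟨hnd, hch⟩, h1, h2⟩, h3, h4⟩, h5⟩ := h
  refine ⟨u, v, ⟨?_, h1, h2⟩, Q_out_right h3 (h5 u (mem_of_head h1)).2,
    Q_out_left h4 (h5 v (mem_of_last h2)).2⟩
  have h6 : ∀ l : List V, l.IsChain X.G.Adj → (∀ x ∈ l, x ∉ img n c) →
      l.IsChain (Q X.G n c) := by
    intro l
    induction l with
    | nil => intro _ _; simp
    | cons x l ih =>
      intro hc1 hc2
      rcases l with _ | ⟨y, l⟩
      · simp
      · rw [List.isChain_cons_cons] at hc1 ⊢
        exact ⟨Q_out_left hc1.1 (hc2 x (by simp)), ih hc1.2 fun z hz =>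
          hc2 z (List.mem_cons_of_mem _ hz)⟩
  exact h6 R hch fun x hx => (h5 x hx).2

/-- general lemma -/
theorem build [DecidableEq V] {X : Cx V} {n : ℕ} {c : ℕ → V} (hg : CR X.G n c) (l : List V)
    (segs : List ℕ) (Rm : Finset ℕ) (E : List V) (hperm : l.Perm (segs.map c ++ E))
    (hsegs : segs.Nodup) (hmem : ∀ i, i ∈ segs ↔ i < n ∧ i ∉ Rm) (hE : E.Nodup)
    (hEA : ∀ x ∈ E, x ∈ X.A ∧ x ∉ img n c) (hfr : ∀ i ∈ Rm, i < n ∧ ¬ chE X.G n c i)
    (hchain : BF X.G n c (c 0) (c (n - 1)) l) (hlen : 3 ≤ l.length) : Rer X n c l Rm E := by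
  obtain ⟨hch, hh, hl⟩ := hchain
  have hn := hg.three
  have hin : ∀ x ∈ segs.map c, x ∈ img n c := by
    intro x hx
    obtain ⟨i, hi, rfl⟩ := List.mem_map.1 hx
    exact mem_image.2 ⟨i, mem_range.2 ((hmem i).1 hi).1, rfl⟩
  have hnd : l.Nodup := by
    rw [hperm.nodup_iff, List.nodup_append]
    refine ⟨?_, hE, ?_⟩
    · refine (List.nodup_map_iff_inj_on hsegs).2 ?_
      intro i hi j hj hij
      exact hg.inj i j ((hmem i).1 hi).1 ((hmem j).1 hj).1 hij
    · intro a ha b hb hab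
      subst hab
      exact (hEA a hb).2 (hin a ha)
  have hnx : ∀ i j, i < n → j < n → Nx l (c i) (c j) → cons n i j := by
    intro i j hi hj hN
    rcases hN with ⟨l1, l2, h1⟩ | ⟨h1, h2⟩
    · rw [h1, List.isChain_append] at hch
      have h2 := hch.2.1
      rw [List.isChain_cons_cons] at h2
      exact h2.1.2 i j hi hj rfl rfl
    · rw [hl] at h1
      rw [hh] at h2
      have e1 := hg.inj (n - 1) i (by omega) hi (by simpa using h1)
      have e2 := hg.inj 0 j (by omega) hj (by simpa using h2)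
      unfold Pool.Agent.W957.CH.cons
      omega
  refine ⟨⟨hlen, ⟨hnd, hch.imp fun a b hab => hab.1⟩, ?_⟩, ?_, hEA, hfr, ?_⟩
  · intro a b ha hb
    rw [hh] at ha
    rw [hl] at hb
    have e1 : c 0 = a := by simpa using ha
    have e2 : c (n - 1) = b := by simpa using hb
    subst e1 e2
    exact hg.clo
  · intro x
    rw [hperm.mem_iff, List.mem_append, List.mem_map]
    constructor
    · rintro (⟨i, hi, rfl⟩ | h)
      · exact Or.inl ⟨i, ((hmem i).1 hi).1, ((hmem i).1 hi).2, rfl⟩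
      · exact Or.inr h
    · rintro (⟨i, hi, hi', rfl⟩ | h)
      · exact Or.inl ⟨i, (hmem i).2 ⟨hi, hi'⟩, rfl⟩
      · exact Or.inr h
  · intro i j hi hj hC
    rcases hC with h | h
    · exact hnx i j hi hj h
    · exact cons_symm (hnx j i hj hi h)

theorem t_PR4 : S_PR4 := by
  intro V _ X n c a1 a2 l1 l2 b2 b1 w1 w2 e1 e2 K1 K2 L1 L2 hg h1 h2 h3 h4 h5 h6 h7 h8
    f1 f2 f3 f4 hK1 hK2 hL1 hL2 he hnd
  have hc := hg.cr
  obtain ⟨uK1, vK1, bK1, q1, q1'⟩ := BF_ear hK1
  obtain ⟨uK2, vK2, bK2, q2, q2'⟩ := BF_ear hK2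
  obtain ⟨uL1, vL1, bL1, q3, q3'⟩ := BF_ear hL1
  obtain ⟨uL2, vL2, bL2, q4, q4'⟩ := BF_ear hL2
  set segs : List ℕ := List.range' 0 (a1 + 1 - 0) ++ List.range' a2 (l1 + 1 - a2) ++
    List.range' l2 (b2 + 1 - l2) ++ List.range' b1 (w1 + 1 - b1) ++
    List.range' w2 (n - 1 + 1 - w2) with hsegs
  have hsnd : segs.Nodup := by
    rw [hsegs]
    refine List.Nodup.append (List.Nodup.append (List.Nodup.append (List.Nodup.append
      List.nodup_range' List.nodup_range' ?_) List.nodup_range' ?_) List.nodup_range' ?_)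
      List.nodup_range' ?_ <;> intro a ha hb <;>
      simp only [List.mem_append, List.mem_range'_1] at ha hb <;> omega
  have hsm : ∀ i, i ∈ segs ↔ i < n ∧ i ∉ Ioo a1 a2 ∪ Ioo l1 l2 ∪ Ioo b2 b1 ∪ Ioo w1 w2 := by
    intro i
    rw [hsegs]
    simp only [List.mem_append, List.mem_range'_1, mem_union, mem_Ioo]
    omega
  have hEA : ∀ x ∈ K1 ++ K2 ++ L1 ++ L2, x ∈ X.A ∧ x ∉ img n c := by
    intro x hx
    simp only [List.mem_append] at hx
    rcases hx with ((hx | hx) | hx) | hx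
    · exact hK1.2 x hx
    · exact hK2.2 x hx
    · exact hL1.2 x hx
    · exact hL2.2 x hx
  have hfr : ∀ i ∈ Ioo a1 a2 ∪ Ioo l1 l2 ∪ Ioo b2 b1 ∪ Ioo w1 w2, i < n ∧ ¬ chE X.G n c i := by
    intro i hi
    simp only [mem_union, mem_Ioo] at hi
    refine ⟨by omega, ?_⟩
    rcases hi with ((hi | hi) | hi) | hi
    · exact f1 i (by omega) (by omega)
    · exact f2 i (by omega) (by omega)
    · exact f3 i (by omega) (by omega)
    · exact f4 i (by omega) (by omega)
  have s0 := BF_sg hc (Nat.zero_le a1) (by omega : a1 < n)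
  have s1 := BF_sg hc (by omega : a2 ≤ l1) (by omega : l1 < n)
  have s2 := BF_sg hc (by omega : l2 ≤ b2) (by omega : b2 < n)
  have s3 := BF_sg hc (by omega : b1 ≤ w1) (by omega : w1 < n)
  have s4 := BF_sg hc (by omega : w2 ≤ n - 1) (by omega : n - 1 < n)
  rcases he with ⟨rfl, rfl⟩ | ⟨rfl, rfl⟩
  · have B1 := BF_append s0 bK1 q1
    have B2 := BF_append B1 s3 q1'
    have B3 := BF_append B2 (BF_reverse bL1) (Q_symm q3')
    have B4 := BF_append B3 (BF_reverse s1) (Q_symm q3)
    have B5 := BF_append B4 bK2 q2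
    have B6 := BF_append B5 (BF_reverse s2) q2'
    have B7 := BF_append B6 bL2 q4
    have B8 := BF_append B7 s4 q4'
    refine ⟨_, build hc _ segs _ _ ?_ hsnd hsm hnd hEA hfr B8 ?_⟩
    · rw [← Multiset.coe_eq_coe, hsegs]
      simp only [← Multiset.coe_add, Multiset.coe_reverse, List.map_append, sg]
      abel
    · simp only [List.length_append, List.length_reverse, sg, List.length_map, List.length_range']
      omega
  · have B1 := BF_append s0 bK1 q1
    have B2 := BF_append B1 s3 q1'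
    have B3 := BF_append B2 (BF_reverse bL2) (Q_symm q4')
    have B4 := BF_append B3 s2 (Q_symm q4)
    have B5 := BF_append B4 (BF_reverse bK2) (Q_symm q2')
    have B6 := BF_append B5 s1 (Q_symm q2)
    have B7 := BF_append B6 bL1 q3
    have B8 := BF_append B7 s4 q3'
    refine ⟨_, build hc _ segs _ _ ?_ hsnd hsm hnd hEA hfr B8 ?_⟩
    · rw [← Multiset.coe_eq_coe, hsegs]
      simp only [← Multiset.coe_add, Multiset.coe_reverse, List.map_append, sg]
      abel
    · simp only [List.length_append, List.length_reverse, sg, List.length_map, List.length_range']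
      omega

end Pool.Agent.W804.CH
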